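import Pool.Agent.ACK.StmtsB

/-!
# Squad ACK (MP_0b396c_gt), row PD2: two edges do not have the same black and the same white face
-/

set_option autoImplicit false

namespace Pool.Agent.ACK.H66

open Pool.Agent.ACK.B

/-- the indicator function of two different edges of a circle has even sums over the circles -/
theorem ev_two {n : ℕ} (w : ZMod n → ℕ) (s : ℕ → Bool) (p q : ZMod n) (hpq : p ≠ q)
    (he : cl w s p = cl w s q) : Ev w s (fun i => if i = p ∨ i = q then 1 else 0) := by
  intro p0 F hF
  have hpF : p ∈ F ↔ q ∈ F := by rw [hF p, hF q, he]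
  have h1 : ∀ i : ZMod n, (if i = p ∨ i = q then (1 : ZMod 2) else 0) =
      (if i = p then 1 else 0) + (if i = q then 1 else 0) := by
    intro i
    by_cases hp : i = p
    · have hq : i ≠ q := fun h => hpq (hp.symm.trans h)
      simp [hp, hpq]
    · simp [hp]
  rw [Finset.sum_congr rfl (fun i _ => h1 i), Finset.sum_add_distrib, Finset.sum_ite_eq',
    Finset.sum_ite_eq']
  by_cases hm : p ∈ F
  · rw [if_pos hm, if_pos (hpF.1 hm)]
    exact CharTwo.add_self_eq_zero 1
  · rw [if_neg hm, if_neg (fun h => hm (hpF.2 h)), add_zero]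

/-- **row PD2** -/
theorem pd2 (h1 : PdlStmt) : Pd2Stmt := by
  intro c w s hc hg hp hn p q e1 e2
  by_contra hpq
  obtain ⟨u, hu, hS⟩ := h1 c w s hc hg hn _ (ev_two w s p q hpq e1) (ev_two w (op s) p q hpq e2)
  exact hp u hu p q hpq fun i => (hS i).symm

end Pool.Agent.ACK.H66
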