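import Pool.Agent.ACK.StmtsA

/-!
# Squad ACK (MP_0b396c_gt), row RNM: standard names of the chains
-/

set_option autoImplicit false

namespace Pool.Agent.ACK.H66

/-- the number of the different letters of a word in which every letter occurs twice -/
theorem two_card {l : List ℕ} (h : Gw l) : 2 * l.dedup.length = l.length := by
  rw [← List.card_toFinset, ← List.sum_toFinset_count_eq_length l,
    Finset.sum_congr rfl (fun x hx => h x (List.mem_toFinset.1 hx)), Finset.sum_const, smul_eq_mul,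
    mul_comm]

/-- **row RNM** -/
theorem rnm : RnmStmt := by
  intro N C b _ hC hlen
  obtain ⟨ls, hls⟩ : ∃ ls, ls = b.map Prod.fst := ⟨_, rfl⟩
  obtain ⟨D, hD⟩ : ∃ D, D = ls.dedup := ⟨_, rfl⟩
  have hG : Gw ls := hls ▸ hC.tw
  have hcard : D.length ≤ N := by
    have h1 := two_card hG
    rw [← hD, hls, List.length_map] at h1
    omega
  have hmem : ∀ t ∈ b, t.1 ∈ D := by
    intro t ht
    rw [hD, List.mem_dedup, hls]
    exact List.mem_map_of_mem ht
  have hget : ∀ x ∈ D, D.getD (D.idxOf x) 0 = x := by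
    intro x hx
    have h1 : D.idxOf x < D.length := List.idxOf_lt_length_of_mem hx
    rw [List.getD_eq_getElem _ _ h1, List.getElem_idxOf]
  have hinj : ∀ x ∈ D, ∀ y ∈ D, D.idxOf x = D.idxOf y → x = y := by
    intro x hx y hy h
    rw [← hget x hx, ← hget y hy, h]
  have hC' : ∀ t ∈ b, C (D.getD (D.idxOf t.1) 0) = C t.1 := fun t ht => by
    rw [hget t.1 (hmem t ht)]
  refine ⟨fun e => C (D.getD e 0), b.map (fun t => (D.idxOf t.1, t.2)), ⟨?_, ?_, ?_, ?_⟩, ?_, ?_, ?_⟩
  · have e1 : (b.map (fun t : Tk => ((D.idxOf t.1, t.2) : Tk))).map Prod.fst =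
        ls.map (fun x => D.idxOf x) := by
      rw [hls, List.map_map, List.map_map]
      rfl
    rw [e1]
    intro x hx
    obtain ⟨y, hy, rfl⟩ := List.mem_map.1 hx
    have hyD : y ∈ D := by rw [hD, List.mem_dedup]; exact hy
    rw [← hG y hy, List.count, List.count, List.countP_map]
    refine List.countP_congr fun z hz => ?_
    have hzD : z ∈ D := by rw [hD, List.mem_dedup]; exact hz
    simp only [Function.comp_apply, beq_iff_eq]
    exact ⟨fun h => hinj z hzD y hyD h, fun h => by rw [h]⟩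
  · intro t' ht'
    obtain ⟨t, ht, rfl⟩ := List.mem_map.1 ht'
    show C (D.getD (D.idxOf t.1) 0) ≠ []
    rw [hC' t ht]
    exact hC.ne t ht
  · intro t' ht'
    obtain ⟨t, ht, rfl⟩ := List.mem_map.1 ht'
    show (C (D.getD (D.idxOf t.1) 0)).Nodup
    rw [hC' t ht]
    exact hC.nd t ht
  · intro t' ht' u' hu' hne
    obtain ⟨t, ht, rfl⟩ := List.mem_map.1 ht'
    obtain ⟨u, hu, rfl⟩ := List.mem_map.1 hu'
    show List.Disjoint (C (D.getD (D.idxOf t.1) 0)) (C (D.getD (D.idxOf u.1) 0))
    rw [hC' t ht, hC' u hu]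
    refine hC.dj t ht u hu fun h => hne ?_
    show D.idxOf t.1 = D.idxOf u.1
    rw [h]
  · intro t' ht'
    obtain ⟨t, ht, rfl⟩ := List.mem_map.1 ht'
    exact (List.idxOf_lt_length_of_mem (hmem t ht)).trans_le hcard
  · rw [List.length_map]
  · unfold BL
    rw [List.flatMap_map]
    refine List.flatMap_congr fun t ht => ?_
    unfold bk
    show (if t.2 then (C (D.getD (D.idxOf t.1) 0)).reverse else C (D.getD (D.idxOf t.1) 0)) = _
    rw [hC' t ht]

end Pool.Agent.ACK.H66
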