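import Pool.Agent.ACK.StmtsC

/-!
# Squad ACK (MP_0b396c_gt), row SYM: the symmetry of the standard word
-/

set_option autoImplicit false

namespace Pool.Agent.ACK.H66

open Pool.Agent.ACK.C

/-- **row SYM** -/
theorem sym (h1 : MtcStmt) : SymStmt := by
  intro C hC
  have hb : (rvs bE).rotate 8 ∈ sy bE :=
    List.mem_append_right _ (List.mem_map.2 ⟨8, by decide, rfl⟩)
  obtain ⟨C', h2, h3, h4, h5⟩ := h1 C bE _ bE hC hb (by decide) rfl
  exact ⟨C', h2, h3, h4, h5 ((1, true), (0, false)) (by decide),
    h5 ((0, true), (1, false)) (by decide), h5 ((2, true), (2, false)) (by decide),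
    h5 ((5, false), (3, false)) (by decide), h5 ((4, false), (4, false)) (by decide),
    h5 ((3, false), (5, false)) (by decide)⟩

end Pool.Agent.ACK.H66
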